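import Pool.Agent.Run7.h169.Ux1

set_option autoImplicit false
open scoped Classical

namespace Pool.Agent.Results.MP_77e93b_co.ForestPlusFour

/-- Points of three-dimensional Euclidean space. -/
abbrev Pt := EuclideanSpace ℝ (Fin 3)

/-- The convex hull of a finite set of points. -/
def hull (t : Finset Pt) : Set Pt := convexHull ℝ (t : Set Pt)

/-- `T` is a face-to-face tetrahedralization of the convex hull of `S` all of whose vertices
belong to `S`: its members are vertex sets of nondegenerate tetrahedra with vertices in `S`,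
these tetrahedra cover the hull of `S`, and any two of them meet exactly in the hull of their
common vertices. -/
def IsTetrahedralization (S : Finset Pt) (T : Finset (Finset Pt)) : Prop :=
  (∀ t ∈ T, t ⊆ S ∧ t.card = 4 ∧ AffineIndependent ℝ (fun x : t => (x.1 : Pt))) ∧
  (⋃ t ∈ T, hull t) = hull S ∧
  ∀ t ∈ T, ∀ u ∈ T, hull t ∩ hull u = hull (t ∩ u)

/-- The members of `T` can be listed so that each appears once and consecutive ones have three
common vertices, that is, share a triangular face. -/
def HasHamiltonianPath (T : Finset (Finset Pt)) : Prop :=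
  ∃ f : ℕ → Finset Pt, (∀ i < T.card, f i ∈ T) ∧
    (∀ i < T.card, ∀ j < T.card, f i = f j → i = j) ∧
    (∀ i, i + 1 < T.card → (f i ∩ f (i + 1)).card = 3)

/-- `p` and `q` are the endpoints of an edge of the convex hull of `S`: some linear functional
attains its maximum over `S` at `p` and `q` only. -/
def IsEdge (S : Finset Pt) (p q : Pt) : Prop :=
  p ∈ S ∧ q ∈ S ∧ p ≠ q ∧
    ∃ f : Pt →ₗ[ℝ] ℝ, f p = f q ∧ ∀ x ∈ S, x ≠ p → x ≠ q → f x < f p

/-- The degree of `p` in the graph of the polytope: the number of its neighbours. -/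
noncomputable def degree (S : Finset Pt) (p : Pt) : ℕ := (S.filter (fun q => IsEdge S p q)).card

/-- There is a cycle in the graph of the polytope all of whose vertices belong to `F`: distinct
points `c 0, …, c (n - 1)` of `F`, `n ≥ 3`, cyclically consecutive ones joined by edges. -/
def HasCycleIn (S F : Finset Pt) : Prop :=
  ∃ (n : ℕ) (c : ℕ → Pt), 3 ≤ n ∧ (∀ i < n, c i ∈ F) ∧
    (∀ i < n, ∀ j < n, c i = c j → i = j) ∧ (∀ i, i + 1 < n → IsEdge S (c i) (c (i + 1))) ∧
    IsEdge S (c (n - 1)) (c 0)

/-- Let `S` be the vertex set of a convex 3-polytope (it spans the space and no point of `S`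
lies in the hull of the others) and let `F` be a set of vertices which induces a forest in the
graph of the polytope. If every vertex outside `F` has at most four neighbours, and those of
them which are adjacent to a vertex of `F` have at most three neighbours, then the polytope has
a Hamiltonian tetrahedralization. With `F` the set of all vertices of degree at least four this
covers the polytopes whose non-simple vertices induce a forest, and with `F` empty it covers all
polytopes of maximum degree at most four. -/
theorem result (S F : Finset Pt) (hspan : affineSpan ℝ (S : Set Pt) = ⊤)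
    (hconv : ∀ p ∈ S, p ∉ hull (S.erase p))
    (hF : ¬ HasCycleIn S F)
    (hdeg4 : ∀ p ∈ S, p ∉ F → degree S p ≤ 4)
    (hdeg3 : ∀ p ∈ S, p ∉ F → ∀ q ∈ F, IsEdge S p q → degree S p ≤ 3) :
    ∃ T, IsTetrahedralization S T ∧ HasHamiltonianPath T := by
  have hsub : ∀ p ∈ S, S.filter (fun q => Run7.h169.IsEdgeS S p q) ⊆
      S.filter (fun q => IsEdge S p q) := by
    intro p hp q hq
    rw [Finset.mem_filter] at hq ⊢
    exact ⟨hq.1, hp, hq.1, hq.2.1, hq.2.2⟩
  obtain ⟨T, h1, h2, h3, h4⟩ := Run7.h169.forest4_hasHamTet (S := S) (F := fun x => x ∈ F)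
    hconv hspan (by
      rintro ⟨n, c, g1, g2, g3, g4, g5⟩
      apply hF
      refine ⟨n, c, g1, fun i hi => (g2 i hi).2, g3, ?_, ?_⟩
      · intro i hi
        obtain ⟨e1, e2⟩ := g4 i hi
        exact ⟨(g2 i (by omega)).1, (g2 (i + 1) hi).1, e1, e2⟩
      · obtain ⟨e1, e2⟩ := g5
        exact ⟨(g2 (n - 1) (by omega)).1, (g2 0 (by omega)).1, e1, e2⟩)
    (fun p hp hpF => le_trans (Finset.card_le_card (hsub p hp)) (hdeg4 p hp hpF))
    (fun p hp hpF q hq hqF he => le_trans (Finset.card_le_card (hsub p hp))
      (hdeg3 p hp hpF q hqF ⟨hp, hq, he.1, he.2⟩))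
  exact ⟨T, ⟨h1, h2, h3⟩, h4⟩

end Pool.Agent.Results.MP_77e93b_co.ForestPlusFour
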