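import Pool.Agent.Run7.h169.Iv11

set_option autoImplicit false
open scoped Classical

namespace Pool.Agent.Results.MP_77e93b_co.IndependentDegreeFour

/-- Points of three-dimensional Euclidean space. -/
abbrev Pt := EuclideanSpace ℝ (Fin 3)

/-- The convex hull of a finite set of points. -/
def hull (t : Finset Pt) : Set Pt := convexHull ℝ (t : Set Pt)

/-- `T` is a face-to-face tetrahedralization of the convex hull of `S` all of whose vertices
belong to `S`: its members are vertex sets of nondegenerate tetrahedra with vertices in `S`,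
these tetrahedra cover the hull of `S`, and any two of them meet exactly in the hull of their
common vertices. -/
def IsTetrahedralization (S : Finset Pt) (T : Finset (Finset Pt)) : Prop :=
  (∀ t ∈ T, t ⊆ S ∧ t.card = 4 ∧ AffineIndependent ℝ (fun x : t => (x.1 : Pt))) ∧
  (⋃ t ∈ T, hull t) = hull S ∧
  ∀ t ∈ T, ∀ u ∈ T, hull t ∩ hull u = hull (t ∩ u)

/-- The members of `T` can be listed so that each appears once and consecutive ones have three
common vertices, that is, share a triangular face. -/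
def HasHamiltonianPath (T : Finset (Finset Pt)) : Prop :=
  ∃ f : ℕ → Finset Pt, (∀ i < T.card, f i ∈ T) ∧
    (∀ i < T.card, ∀ j < T.card, f i = f j → i = j) ∧
    (∀ i, i + 1 < T.card → (f i ∩ f (i + 1)).card = 3)

/-- `p` and `q` are the endpoints of an edge of the convex hull of `S`: some linear functional
attains its maximum over `S` at `p` and `q` only. -/
def IsEdge (S : Finset Pt) (p q : Pt) : Prop :=
  p ∈ S ∧ q ∈ S ∧ p ≠ q ∧
    ∃ f : Pt →ₗ[ℝ] ℝ, f p = f q ∧ ∀ x ∈ S, x ≠ p → x ≠ q → f x < f p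

/-- The graph of the polytope with vertex set `S`. -/
def polytopeGraph (S : Finset Pt) : SimpleGraph Pt where
  Adj := IsEdge S
  symm := ⟨by
    rintro p q ⟨h1, h2, h3, f, h4, h5⟩
    exact ⟨h2, h1, h3.symm, f, h4.symm, fun x hx hq hp => h4 ▸ h5 x hx hp hq⟩⟩
  loopless := ⟨fun _ h => h.2.2.1 rfl⟩

/-- The points `p`, `q` and `z` lie on a common facet of the hull of `S`: some nonzero linear
functional attains its maximum over `S` at each of them. -/
def OnCommonFacet (S : Finset Pt) (p q z : Pt) : Prop :=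
  ∃ f : Pt →ₗ[ℝ] ℝ, f ≠ 0 ∧ f p = f z ∧ f q = f z ∧ ∀ x ∈ S, f x ≤ f z

/-- Let `S` be the vertex set of a convex 3-polytope (it spans the space and no point of `S`
lies in the hull of the others), let `z` be one of the vertices, and let the other vertices be
split into three sets `A`, `B`, `I`, where `A` and `B` are nonempty and disjoint. Suppose that
every vertex in `I` has at most four neighbours, all of them in `A` or `B`, that `A` and `B`
induce forests in the graph of the hull of `S \ I`, and that at most two edges of this hull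
joining `A` to `B` lie on facets of it containing `z`. Then the polytope has a Hamiltonian
tetrahedralization. -/
theorem result (S A B I : Finset Pt) (z : Pt) (hspan : affineSpan ℝ (S : Set Pt) = ⊤)
    (hconv : ∀ p ∈ S, p ∉ hull (S.erase p)) (hz : z ∈ S) (hI : I ⊆ S) (hzI : z ∉ I)
    (hU : A ∪ B = (S \ I).erase z) (hdisj : Disjoint A B) (hA : A.Nonempty) (hB : B.Nonempty)
    (h4 : ∀ x ∈ I, (S.filter (fun y => IsEdge S x y)).card ≤ 4)
    (hn : ∀ x ∈ I, ∀ y, IsEdge S x y → y ∈ A ∪ B)
    (hfA : ((polytopeGraph (S \ I)).induce (A : Set Pt)).IsAcyclic)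
    (hfB : ((polytopeGraph (S \ I)).induce (B : Set Pt)).IsAcyclic)
    (h2 : ((A ×ˢ B).filter
      (fun e => IsEdge (S \ I) e.1 e.2 ∧ OnCommonFacet (S \ I) e.1 e.2 z)).card ≤ 2) :
    ∃ T, IsTetrahedralization S T ∧ HasHamiltonianPath T := by
  have hAS : A ⊆ S \ I := fun x hx => Finset.mem_of_mem_erase
    (hU ▸ Finset.mem_union_left B hx)
  have hBS : B ⊆ S \ I := fun x hx => Finset.mem_of_mem_erase
    (hU ▸ Finset.mem_union_right A hx)
  have leaf : ∀ C : Finset Pt, C ⊆ S \ I →
      ((polytopeGraph (S \ I)).induce (C : Set Pt)).IsAcyclic →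
      ∀ M ⊆ C, M.Nonempty → ∃ x ∈ M, ∀ y ∈ M, ∀ t ∈ M,
        Run7.h169.IsEdgeS (S \ I) x y → Run7.h169.IsEdgeS (S \ I) x t → y = t := by
    intro C hCS hC M hM hne
    obtain ⟨x, hx, hl⟩ := Run7.h169.acyclic_leaf hC (M := M) (by exact_mod_cast hM) hne
    exact ⟨x, hx, fun y hy t ht e1 e2 => hl y hy t ht
      ⟨hCS (hM hx), hCS (hM hy), e1.1, e1.2⟩ ⟨hCS (hM hx), hCS (hM ht), e2.1, e2.2⟩⟩
  have hnot : ∀ x ∈ I, ∀ y ∈ S, (y ∈ I ∨ y = z) → ¬ Run7.h169.IsEdgeS S x y := by
    intro x hx y hy hor he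
    have h1 := hn x hx y ⟨hI hx, hy, he.1, he.2⟩
    rw [hU] at h1
    obtain ⟨h3, h5⟩ := Finset.mem_erase.mp h1
    rcases hor with h | h
    · exact (Finset.mem_sdiff.mp h5).2 h
    · exact h3 h
  obtain ⟨T, h1, h2, h3, h4⟩ := Run7.h169.indep_partition_hasHamTet (z := z) hA hB hdisj
    I.card S I rfl hconv hspan hz hI hzI hU (leaf A hAS hfA) (leaf B hBS hfB) (by
      refine le_trans (Finset.card_le_card ?_) h2
      intro e he
      rw [Finset.mem_filter] at he ⊢
      obtain ⟨e1, e2, e3⟩ := he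
      obtain ⟨eA, eB⟩ := Finset.mem_product.mp e1
      exact ⟨e1, ⟨hAS eA, hBS eB, e2.1, e2.2⟩, e3⟩) (by
      intro x hx
      refine ⟨le_trans (Finset.card_le_card ?_) (h4 x hx), fun y hy => hnot x hx y (hI hy)
        (Or.inl hy), hnot x hx z hz (Or.inr rfl)⟩
      intro y hy
      obtain ⟨y1, y2⟩ := Finset.mem_filter.mp hy
      exact Finset.mem_filter.mpr ⟨y1, hI hx, y1, y2.1, y2.2⟩)
  exact ⟨T, ⟨h1, h2, h3⟩, h4⟩

end Pool.Agent.Results.MP_77e93b_co.IndependentDegreeFour
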