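import Pool.Agent.Run7.h169.Stack5

set_option autoImplicit false
open scoped Classical

namespace Pool.Agent.Results.MP_77e93b_co.SimpleVertexInsertion

/-- Points of three-dimensional Euclidean space. -/
abbrev Pt := EuclideanSpace ℝ (Fin 3)

/-- The convex hull of a finite set of points. -/
def hull (t : Finset Pt) : Set Pt := convexHull ℝ (t : Set Pt)

/-- `T` is a face-to-face tetrahedralization of the convex hull of `S` all of whose vertices
belong to `S`. -/
def IsTetrahedralization (S : Finset Pt) (T : Finset (Finset Pt)) : Prop :=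
  (∀ t ∈ T, t ⊆ S ∧ t.card = 4 ∧ AffineIndependent ℝ (fun x : t => (x.1 : Pt))) ∧
  (⋃ t ∈ T, hull t) = hull S ∧
  ∀ t ∈ T, ∀ u ∈ T, hull t ∩ hull u = hull (t ∩ u)

/-- The members of `T` can be listed so that each appears once and consecutive ones have three
common vertices, that is, share a triangular face. -/
def HasHamiltonianPath (T : Finset (Finset Pt)) : Prop :=
  ∃ f : ℕ → Finset Pt, (∀ i < T.card, f i ∈ T) ∧
    (∀ i < T.card, ∀ j < T.card, f i = f j → i = j) ∧
    (∀ i, i + 1 < T.card → (f i ∩ f (i + 1)).card = 3)

/-- The convex hull of `S` has a tetrahedralization whose dual graph has a Hamiltonian path. -/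
def HasHamiltonianTetrahedralization (S : Finset Pt) : Prop :=
  ∃ T, IsTetrahedralization S T ∧ HasHamiltonianPath T

/-- `x` is a simple vertex of the convex hull of `S`: there are three points `a, b, c` of `S`,
affinely independent together with `x`, such that `S` lies in the cone with apex `x` generated
by `a - x`, `b - x` and `c - x`. -/
def IsSimpleVertex (S : Finset Pt) (x : Pt) : Prop :=
  ∃ a b c : Pt, a ∈ S ∧ b ∈ S ∧ c ∈ S ∧ AffineIndependent ℝ ![x, a, b, c] ∧
    ∀ y ∈ S, ∃ α β γ : ℝ, 0 ≤ α ∧ 0 ≤ β ∧ 0 ≤ γ ∧
      y - x = α • (a - x) + β • (b - x) + γ • (c - x)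

/-- `S` is the vertex set of a convex 3-polytope. -/
def IsVertexSet (S : Finset Pt) : Prop :=
  affineSpan ℝ (S : Set Pt) = ⊤ ∧ ∀ p ∈ S, p ∉ hull (S.erase p)

/-- Adding a simple vertex preserves the existence of a Hamiltonian tetrahedralization: if `x` is
a simple vertex of the convex 3-polytope with vertex set `S`, and the polytope spanned by the
other vertices has a Hamiltonian tetrahedralization in case it is three-dimensional, then so has
the polytope with vertex set `S`. Hence deleting simple vertices turns counterexamples into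
counterexamples, and a counterexample with fewest vertices has no simple vertex. -/
theorem result (S : Finset Pt) (hS : IsVertexSet S) (x : Pt) (hx : x ∈ S)
    (hsimple : IsSimpleVertex S x)
    (h : IsVertexSet (S.erase x) → HasHamiltonianTetrahedralization (S.erase x)) :
    HasHamiltonianTetrahedralization S := by
  have hS' : Run7.h169.ConvPos S := hS.2
  have key : Run7.h169.HasHamTet S := by
    rcases Run7.h169.erase_simple hS' hx hsimple with h1 | h1
    · exact h1
    · obtain ⟨T, ⟨h2, h3, h4⟩, h5⟩ := h ⟨h1, hS'.mono (Finset.erase_subset _ _)⟩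
      exact Run7.h169.insert_simple hS' hx hsimple ⟨T, h2, h3, h4, h5⟩
  obtain ⟨T, h2, h3, h4, h5⟩ := key
  exact ⟨T, ⟨h2, h3, h4⟩, h5⟩

end Pool.Agent.Results.MP_77e93b_co.SimpleVertexInsertion
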