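import Pool.Agent.Run7.h169.Tf6

set_option autoImplicit false
open scoped Classical

namespace Pool.Agent.Results.MP_77e93b_co.TriangleVerticesSimple

/-- Points of three-dimensional Euclidean space. -/
abbrev Pt := EuclideanSpace ℝ (Fin 3)

/-- The convex hull of a finite set of points. -/
def hull (t : Finset Pt) : Set Pt := convexHull ℝ (t : Set Pt)

/-- `T` is a face-to-face tetrahedralization of the convex hull of `S` all of whose vertices
belong to `S`: its members are vertex sets of nondegenerate tetrahedra with vertices in `S`,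
these tetrahedra cover the hull of `S`, and any two of them meet exactly in the hull of their
common vertices. -/
def IsTetrahedralization (S : Finset Pt) (T : Finset (Finset Pt)) : Prop :=
  (∀ t ∈ T, t ⊆ S ∧ t.card = 4 ∧ AffineIndependent ℝ (fun x : t => (x.1 : Pt))) ∧
  (⋃ t ∈ T, hull t) = hull S ∧
  ∀ t ∈ T, ∀ u ∈ T, hull t ∩ hull u = hull (t ∩ u)

/-- The members of `T` can be listed so that each appears once and consecutive ones have three
common vertices, that is, share a triangular face. -/
def HasHamiltonianPath (T : Finset (Finset Pt)) : Prop :=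
  ∃ f : ℕ → Finset Pt, (∀ i < T.card, f i ∈ T) ∧
    (∀ i < T.card, ∀ j < T.card, f i = f j → i = j) ∧
    (∀ i, i + 1 < T.card → (f i ∩ f (i + 1)).card = 3)

/-- `p` and `q` are the endpoints of an edge of the convex hull of `S`: some linear functional
attains its maximum over `S` at `p` and `q` only. -/
def IsEdge (S : Finset Pt) (p q : Pt) : Prop :=
  p ∈ S ∧ q ∈ S ∧ p ≠ q ∧
    ∃ f : Pt →ₗ[ℝ] ℝ, f p = f q ∧ ∀ x ∈ S, x ≠ p → x ≠ q → f x < f p

/-- The degree of `p` in the graph of the polytope: the number of its neighbours. -/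
noncomputable def degree (S : Finset Pt) (p : Pt) : ℕ := (S.filter (fun q => IsEdge S p q)).card

/-- Let `S` be the vertex set of a convex 3-polytope (it spans the space and no point of `S`
lies in the hull of the others). If every vertex lying on a cycle of length three of the graph of
the polytope has at most three neighbours, then the polytope has a Hamiltonian
tetrahedralization. In particular this holds if the graph has no cycle of length three, or if all
vertices have degree three. -/
theorem result (S : Finset Pt) (hspan : affineSpan ℝ (S : Set Pt) = ⊤)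
    (hconv : ∀ p ∈ S, p ∉ hull (S.erase p))
    (htri : ∀ p q r : Pt, IsEdge S p q → IsEdge S q r → IsEdge S r p → degree S p ≤ 3) :
    ∃ T, IsTetrahedralization S T ∧ HasHamiltonianPath T := by
  obtain ⟨T, h1, h2, h3, h4⟩ := Run7.h169.hyp_hasHamTet (S := S) hconv hspan (by
    rintro p hp hd q hq r hr ⟨a1, a2⟩ ⟨b1, b2⟩ ⟨c1, c2⟩
    obtain ⟨b1', b2'⟩ := (show Run7.h169.IsEdgeS S p r from ⟨b1, b2⟩).symm
    have h := htri p q r ⟨hp, hq, a1, a2⟩ ⟨hq, hr, c1, c2⟩ ⟨hr, hp, b1', b2'⟩
    have h2 : Run7.h169.sdeg S p ≤ degree S p := by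
      apply Finset.card_le_card
      intro z hz
      obtain ⟨z1, z2⟩ := Finset.mem_filter.mp hz
      exact Finset.mem_filter.mpr ⟨z1, hp, z1, z2.1, z2.2⟩
    omega)
  exact ⟨T, ⟨h1, h2, h3⟩, h4⟩

end Pool.Agent.Results.MP_77e93b_co.TriangleVerticesSimple
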